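import Mathlib
import Pool.Agent.W536.XI.Stm

/-!
Task GREP of project XI: the contour representation of `G`.
-/

open Complex MeasureTheory Filter Topology W536.XI Set

namespace Pool.Agent.W636.XI

noncomputable section

/-- the common kernel -/
def ker (x : ℝ) : ℝ := Real.exp (-(Real.pi * Real.exp (2 * x)))

lemma key (a : ℂ) (x : ℝ) : |2 * (Real.pi * Real.exp (2 * x))| •
    ((Real.exp (-(Real.pi * Real.exp (2 * x))) : ℂ) *
      ((Real.pi * Real.exp (2 * x) : ℝ) : ℂ) ^ (a / 2 - 1)) =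
    2 * cexp ((a / 2) * (Real.log Real.pi : ℝ)) * (cexp (a * x) * (ker x : ℂ)) := by
  have hp : (0 : ℝ) < Real.pi * Real.exp (2 * x) := by positivity
  have hl : Real.log (Real.pi * Real.exp (2 * x)) = Real.log Real.pi + 2 * x := by
    rw [Real.log_mul Real.pi_pos.ne' (Real.exp_pos _).ne', Real.log_exp]
  have h1 : ((Real.pi * Real.exp (2 * x) : ℝ) : ℂ) ^ (a / 2 - 1) =
      cexp (((Real.log Real.pi : ℝ) + 2 * x) * (a / 2 - 1)) := by
    rw [Complex.cpow_def_of_ne_zero (by exact_mod_cast hp.ne'), ← Complex.ofReal_log hp.le, hl]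
    push_cast
    rfl
  have h2 : ((Real.pi * Real.exp (2 * x) : ℝ) : ℂ) = cexp ((Real.log Real.pi : ℝ) + 2 * x) := by
    rw [← Real.exp_log hp, hl]
    push_cast
    rfl
  rw [abs_of_pos (by positivity), h1, real_smul, ofReal_mul, h2, ofReal_ofNat]
  unfold ker
  have h3 : cexp (((Real.log Real.pi : ℝ) + 2 * x) : ℂ) *
      cexp (((Real.log Real.pi : ℝ) + 2 * x) * (a / 2 - 1)) =
      cexp ((a / 2) * (Real.log Real.pi : ℝ)) * cexp (a * x) := by
    rw [← Complex.exp_add, ← Complex.exp_add]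
    congr 1
    ring
  linear_combination (2 * (Real.exp (-(Real.pi * Real.exp (2 * x))) : ℂ)) * h3

lemma cov (a : ℂ) (ha : 0 < a.re) :
    Integrable (fun x : ℝ => cexp (a * x) * (ker x : ℂ)) ∧
    ∫ x : ℝ, cexp (a * x) * (ker x : ℂ) =
      1 / 2 * cexp (-(a / 2) * (Real.log Real.pi : ℝ)) * Gamma (a / 2) := by
  have hd : ∀ x ∈ (univ : Set ℝ), HasDerivWithinAt (fun x : ℝ => Real.pi * Real.exp (2 * x))
      (2 * (Real.pi * Real.exp (2 * x))) univ x := by
    intro x _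
    have h1 : HasDerivAt (fun x : ℝ => 2 * x) (2 * 1) x := (hasDerivAt_id x).const_mul 2
    have h2 := (h1.exp.const_mul Real.pi).hasDerivWithinAt (s := univ)
    have e : 2 * (Real.pi * Real.exp (2 * x)) = Real.pi * (Real.exp (2 * x) * (2 * 1)) := by ring
    rw [e]
    exact h2
  have hinj : InjOn (fun x : ℝ => Real.pi * Real.exp (2 * x)) univ := by
    intro x _ y _ hxy
    have h1 := mul_left_cancel₀ Real.pi_pos.ne' hxy
    have h2 := Real.exp_injective h1
    linarith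
  have himg : (fun x : ℝ => Real.pi * Real.exp (2 * x)) '' univ = Ioi 0 := by
    ext t
    simp only [image_univ, mem_range, mem_Ioi]
    constructor
    · rintro ⟨x, rfl⟩
      positivity
    · intro ht
      refine ⟨Real.log (t / Real.pi) / 2, ?_⟩
      rw [mul_div_cancel₀ _ (two_ne_zero), Real.exp_log (by positivity)]
      field_simp
  have h1 := integral_image_eq_integral_abs_deriv_smul MeasurableSet.univ hd hinj
    (fun t : ℝ => (Real.exp (-t) : ℂ) * (t : ℂ) ^ (a / 2 - 1))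
  have h2 := integrableOn_image_iff_integrableOn_abs_deriv_smul MeasurableSet.univ hd hinj
    (fun t : ℝ => (Real.exp (-t) : ℂ) * (t : ℂ) ^ (a / 2 - 1))
  rw [himg] at h1 h2
  have ha2 : 0 < (a / 2).re := by
    simp
    exact ha
  have h3 := h2.1 (GammaIntegral_convergent ha2)
  simp only [key, Measure.restrict_univ, integrableOn_univ] at h1 h3
  have hne : (2 * cexp ((a / 2) * (Real.log Real.pi : ℝ)) : ℂ) ≠ 0 :=
    mul_ne_zero two_ne_zero (Complex.exp_ne_zero _)
  have h4 : Integrable (fun x : ℝ => cexp (a * x) * (ker x : ℂ)) := by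
    have := h3.const_mul (2 * cexp ((a / 2) * (Real.log Real.pi : ℝ)) : ℂ)⁻¹
    refine this.congr (Eventually.of_forall fun x => ?_)
    change _⁻¹ * (_ * _) = _
    rw [inv_mul_cancel_left₀ hne]
  refine ⟨h4, ?_⟩
  rw [integral_const_mul] at h1
  have h5 : Gamma (a / 2) = 2 * cexp ((a / 2) * (Real.log Real.pi : ℝ)) *
      ∫ x : ℝ, cexp (a * x) * (ker x : ℂ) := by
    rw [Gamma_eq_integral ha2, ← h1]
    rfl
  rw [h5]
  have h6 : cexp (-(a / 2) * (Real.log Real.pi : ℝ)) * cexp ((a / 2) * (Real.log Real.pi : ℝ)) =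
      1 := by
    rw [← Complex.exp_add]
    simp
  linear_combination (-(∫ x : ℝ, cexp (a * x) * (ker x : ℂ))) * h6

lemma phi_mul (w : ℂ) (x : ℝ) : (phi1 x : ℂ) * cexp ((w - 1 / 2) * x) =
    4 * (Real.pi : ℂ) ^ 2 * (cexp ((w + 4) * x) * (ker x : ℂ)) -
      6 * (Real.pi : ℂ) * (cexp ((w + 2) * x) * (ker x : ℂ)) := by
  have h1 : cexp ((w + 4) * x) = cexp ((w - 1 / 2) * x) * cexp (9 * x / 2) := by
    rw [← Complex.exp_add]
    congr 1
    ring
  have h2 : cexp ((w + 2) * x) = cexp ((w - 1 / 2) * x) * cexp (5 * x / 2) := by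
    rw [← Complex.exp_add]
    congr 1
    ring
  rw [h1, h2]
  unfold phi1 ker
  push_cast
  ring

lemma hh_rep (w : ℂ) (hw : 0 < w.re) :
    Integrable (fun x : ℝ => (phi1 x : ℂ) * cexp ((w - 1 / 2) * x)) ∧
    ∫ x : ℝ, (phi1 x : ℂ) * cexp ((w - 1 / 2) * x) = hh w := by
  have h4 : 0 < (w + 4).re := by
    rw [add_re]
    norm_num
    linarith
  have h2 : 0 < (w + 2).re := by
    rw [add_re]
    norm_num
    linarith
  obtain ⟨i4, e4⟩ := cov (w + 4) h4
  obtain ⟨i2, e2⟩ := cov (w + 2) h2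
  simp only [phi_mul]
  refine ⟨(i4.const_mul _).sub (i2.const_mul _), ?_⟩
  rw [integral_sub (i4.const_mul _) (i2.const_mul _), integral_const_mul, integral_const_mul,
    e4, e2]
  unfold hh
  have h5 : Gamma ((w + 4) / 2) = (1 + w / 2) * Gamma (1 + w / 2) := by
    rw [← Gamma_add_one]
    · congr 1
      ring
    · intro h
      have := congrArg re h
      simp at this
      linarith
  have h6 : (w + 2) / 2 = 1 + w / 2 := by ring
  have hpi : (Real.pi : ℂ) = cexp (Real.log Real.pi : ℝ) := by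
    rw [← Complex.ofReal_exp, Real.exp_log Real.pi_pos]
  have hpi0 : (Real.pi : ℂ) ≠ 0 := by exact_mod_cast Real.pi_pos.ne'
  have h7 : cexp (-((w + 4) / 2) * (Real.log Real.pi : ℝ)) * (Real.pi : ℂ) ^ 2 =
      cexp (-(w / 2) * (Real.log Real.pi : ℝ)) := by
    conv_lhs => rw [hpi]
    rw [← Complex.exp_nat_mul, ← Complex.exp_add]
    congr 1
    push_cast
    ring
  have h8 : cexp (-((w + 2) / 2) * (Real.log Real.pi : ℝ)) * (Real.pi : ℂ) =
      cexp (-(w / 2) * (Real.log Real.pi : ℝ)) := by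
    conv_lhs => rw [hpi]
    rw [← Complex.exp_add]
    congr 1
    ring
  rw [h5, h6]
  rw [h6] at h8
  linear_combination (2 * (1 + w / 2) * Gamma (1 + w / 2)) * h7 - 3 * Gamma (1 + w / 2) * h8

lemma gauss (s : ℂ) (x : ℝ) :
    ∫ v : ℝ, cexp ((2 + I * v - s) ^ 2 / 4) * cexp (I * v * x) =
      (2 * Real.sqrt Real.pi : ℝ) * cexp (-(x : ℂ) ^ 2 + (s - 2) * x) := by
  have h1 : ∀ v : ℝ, cexp ((2 + I * v - s) ^ 2 / 4) * cexp (I * v * x) =
      cexp ((-1 / 4 : ℂ) * (v : ℂ) ^ 2 + (I * ((2 - s) / 2 + x)) * v + (2 - s) ^ 2 / 4) := by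
    intro v
    rw [← Complex.exp_add]
    congr 1
    ring_nf
    rw [I_sq]
    ring
  simp only [h1]
  rw [integral_cexp_quadratic (by norm_num)]
  congr 1
  · have h2 : (Real.pi : ℂ) / -(-1 / 4) = ((4 * Real.pi : ℝ) : ℂ) := by
      push_cast
      ring
    have h3 : (1 / 2 : ℂ) = ((1 / 2 : ℝ) : ℂ) := by push_cast; rfl
    rw [h2, h3, ← Complex.ofReal_cpow (by positivity), ← Real.sqrt_eq_rpow,
      Real.sqrt_mul (by norm_num)]
    congr 2
    rw [show (4 : ℝ) = 2 ^ 2 by norm_num]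
    exact Real.sqrt_sq (by norm_num)
  · congr 1
    ring_nf
    rw [I_sq]
    ring

lemma gint (s : ℂ) : Integrable (fun v : ℝ => cexp ((2 + I * v - s) ^ 2 / 4)) := by
  have h1 : ∀ v : ℝ, cexp ((2 + I * v - s) ^ 2 / 4) =
      cexp ((-1 / 4 : ℂ) * (v : ℂ) ^ 2 + (I * ((2 - s) / 2)) * v + (2 - s) ^ 2 / 4) := by
    intro v
    congr 1
    ring_nf
    rw [I_sq]
    ring
  simp only [h1]
  exact integrable_cexp_quadratic' (by norm_num) _ _

lemma contour (s : ℂ) :
    Integrable (fun v : ℝ => hh (2 + I * v) * cexp ((2 + I * v - s) ^ 2 / 4)) ∧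
    G s = 1 / (2 * Real.sqrt Real.pi : ℝ) *
      ∫ v : ℝ, hh (2 + I * v) * cexp ((2 + I * v - s) ^ 2 / 4) := by
  let f : ℝ → ℂ := fun x => (phi1 x : ℂ) * cexp ((2 - 1 / 2) * x)
  let g : ℝ → ℂ := fun v => cexp ((2 + I * v - s) ^ 2 / 4)
  have hf : Integrable f := (hh_rep 2 (by norm_num)).1
  have hg : Integrable g := gint s
  have hgf : Integrable (fun p : ℝ × ℝ => g p.1 * f p.2) (volume.prod volume) :=
    hg.mul_prod hf
  have hF : Integrable (fun p : ℝ × ℝ => g p.1 * f p.2 * cexp (I * p.1 * p.2))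
      (volume.prod volume) := by
    refine hgf.mono (hgf.aestronglyMeasurable.mul ?_) (Eventually.of_forall fun p => ?_)
    · exact (by fun_prop : Continuous fun p : ℝ × ℝ => cexp (I * p.1 * p.2)).aestronglyMeasurable
    · rw [norm_mul, Complex.norm_exp]
      have : (I * (p.1 : ℂ) * (p.2 : ℂ)).re = 0 := by simp
      rw [this, Real.exp_zero, mul_one]
  have h1 : ∀ v : ℝ, ∫ x : ℝ, g v * f x * cexp (I * v * x) =
      hh (2 + I * v) * cexp ((2 + I * v - s) ^ 2 / 4) := by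
    intro v
    have h2 := (hh_rep (2 + I * v) (by simp)).2
    rw [← h2, ← integral_mul_const]
    refine integral_congr_ae (Eventually.of_forall fun x => ?_)
    change g v * ((phi1 x : ℂ) * cexp ((2 - 1 / 2) * x)) * cexp (I * v * x) =
      ((phi1 x : ℂ) * cexp ((2 + I * v - 1 / 2) * x)) * g v
    have h3 : cexp ((2 + I * v - 1 / 2) * x) = cexp ((2 - 1 / 2) * x) * cexp (I * v * x) := by
      rw [← Complex.exp_add]
      congr 1
      ring
    rw [h3]
    ring
  have h2 : ∀ x : ℝ, ∫ v : ℝ, g v * f x * cexp (I * v * x) =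
      (2 * Real.sqrt Real.pi : ℝ) * ((phi1 x : ℂ) * cexp (-(x : ℂ) ^ 2 + (s - 1 / 2) * x)) := by
    intro x
    have h3 : ∀ v : ℝ, g v * f x * cexp (I * v * x) =
        f x * (cexp ((2 + I * v - s) ^ 2 / 4) * cexp (I * v * x)) := by
      intro v
      change cexp ((2 + I * v - s) ^ 2 / 4) * f x * cexp (I * v * x) = _
      ring
    simp only [h3]
    rw [integral_const_mul, gauss]
    change (phi1 x : ℂ) * cexp ((2 - 1 / 2) * x) * _ = _
    have h4 : cexp (-(x : ℂ) ^ 2 + (s - 1 / 2) * x) =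
        cexp ((2 - 1 / 2) * x) * cexp (-(x : ℂ) ^ 2 + (s - 2) * x) := by
      rw [← Complex.exp_add]
      congr 1
      ring
    rw [h4]
    ring
  constructor
  · refine hF.integral_prod_left.congr (Eventually.of_forall fun v => ?_)
    exact h1 v
  · have h3 := integral_integral_swap
      (f := fun v x : ℝ => g v * f x * cexp (I * v * x)) hF
    have h4 : ∫ v : ℝ, hh (2 + I * v) * cexp ((2 + I * v - s) ^ 2 / 4) =
        (2 * Real.sqrt Real.pi : ℝ) * G s := by
      rw [← integral_congr_ae (Eventually.of_forall h1)]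
      refine h3.trans ?_
      rw [integral_congr_ae (Eventually.of_forall h2), integral_const_mul]
      rfl
    rw [h4, ← mul_assoc]
    have h5 : ((2 * Real.sqrt Real.pi : ℝ) : ℂ) ≠ 0 := by
      have : (0 : ℝ) < 2 * Real.sqrt Real.pi := by positivity
      exact_mod_cast this.ne'
    rw [one_div, inv_mul_cancel₀ h5, one_mul]

lemma norm_Gamma_le {z : ℂ} (hz : 0 < z.re) : ‖Complex.Gamma z‖ ≤ Real.Gamma z.re := by
  rw [Complex.Gamma_eq_integral hz, Real.Gamma_eq_integral hz]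
  unfold Complex.GammaIntegral
  refine (norm_integral_le_integral_norm _).trans (le_of_eq ?_)
  refine setIntegral_congr_fun measurableSet_Ioi (fun t ht => ?_)
  have ht' : (0 : ℝ) < t := ht
  simp only [norm_mul]
  rw [Complex.norm_cpow_eq_rpow_re_of_pos ht', Complex.norm_real, Real.norm_eq_abs,
    abs_of_pos (Real.exp_pos _)]
  simp

lemma hh_bound (v : ℝ) : ‖hh (2 + I * v)‖ ≤ 1 + |v| := by
  unfold hh
  rw [norm_mul, norm_mul]
  have h1 : ‖(2 + I * v - 1 : ℂ)‖ ≤ 1 + |v| := by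
    have : (2 + I * v - 1 : ℂ) = 1 + I * v := by ring
    rw [this]
    refine (norm_add_le _ _).trans ?_
    simp
  have h2 : ‖Gamma (1 + (2 + I * v) / 2)‖ ≤ 1 := by
    have hre : (1 + (2 + I * v) / 2 : ℂ).re = 2 := by
      simp
      norm_num
    refine (norm_Gamma_le (by rw [hre]; norm_num)).trans ?_
    rw [hre, Real.Gamma_two]
  have h3 : ‖cexp (-((2 + I * v) / 2) * (Real.log Real.pi : ℝ))‖ ≤ 1 := by
    rw [Complex.norm_exp, Real.exp_le_one_iff]
    have : (-((2 + I * v) / 2) * (Real.log Real.pi : ℝ) : ℂ).re = -Real.log Real.pi := by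
      simp
    rw [this]
    have := Real.log_nonneg (by linarith [Real.pi_gt_three] : (1 : ℝ) ≤ Real.pi)
    linarith
  calc _ ≤ (1 + |v|) * 1 * 1 := by gcongr
    _ = 1 + |v| := by ring

lemma phi1_bound (x : ℝ) : |phi1 x| ≤ 2 * (2 * Real.pi ^ 2 + 3 * Real.pi) := by
  have hb : ∀ c : ℝ, 0 ≤ c → c ≤ 9 / 2 → Real.exp (c * x) *
      Real.exp (-(Real.pi * Real.exp (2 * x))) ≤ 1 := by
    intro c hc hc'
    rw [← Real.exp_add, Real.exp_le_one_iff]
    have hpi := Real.pi_gt_three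
    rcases le_or_gt x 0 with hx | hx
    · have : 0 ≤ Real.pi * Real.exp (2 * x) := by positivity
      nlinarith [mul_nonneg hc (neg_nonneg.2 hx)]
    · have h1 := Real.add_one_le_exp (2 * x)
      have h2 : Real.pi * (2 * x + 1) ≤ Real.pi * Real.exp (2 * x) :=
        mul_le_mul_of_nonneg_left h1 Real.pi_pos.le
      nlinarith [mul_le_mul_of_nonneg_right hc' hx.le, mul_pos Real.pi_pos hx]
  have h9 := hb (9 / 2) (by norm_num) le_rfl
  have h5 := hb (5 / 2) (by norm_num) (by norm_num)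
  have e : phi1 x = 2 * (2 * Real.pi ^ 2 * (Real.exp (9 / 2 * x) *
      Real.exp (-(Real.pi * Real.exp (2 * x)))) - 3 * Real.pi * (Real.exp (5 / 2 * x) *
      Real.exp (-(Real.pi * Real.exp (2 * x))))) := by
    unfold phi1
    rw [show 9 * x / 2 = 9 / 2 * x by ring, show 5 * x / 2 = 5 / 2 * x by ring]
    ring
  have p9 : 0 ≤ Real.exp (9 / 2 * x) * Real.exp (-(Real.pi * Real.exp (2 * x))) := by positivity
  have p5 : 0 ≤ Real.exp (5 / 2 * x) * Real.exp (-(Real.pi * Real.exp (2 * x))) := by positivity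
  rw [e, abs_le]
  have hpi := Real.pi_pos
  constructor
  · nlinarith [mul_le_mul_of_nonneg_left h5 hpi.le, mul_nonneg (sq_nonneg Real.pi) p9]
  · nlinarith [mul_le_mul_of_nonneg_left h9 (sq_nonneg Real.pi), mul_nonneg hpi.le p5]

lemma phi1_cont : Continuous phi1 := by
  unfold phi1
  fun_prop

/-- an integrable majorant -/
def bd (R x : ℝ) : ℝ := 2 * (2 * Real.pi ^ 2 + 3 * Real.pi) *
  (Real.exp ((R + 1) ^ 2 / 2) * Real.exp (-(1 / 2) * x ^ 2))

lemma bd_int (R : ℝ) : Integrable (bd R) := by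
  unfold bd
  exact ((integrable_exp_neg_mul_sq (by norm_num)).const_mul _).const_mul _

lemma le_bd (R : ℝ) (s : ℂ) (hs : |(s - 1 / 2).re| ≤ R) (x : ℝ) :
    |x| * ‖(phi1 x : ℂ) * cexp (-(x : ℂ) ^ 2 + (s - 1 / 2) * x)‖ ≤ bd R x ∧
    ‖(phi1 x : ℂ) * cexp (-(x : ℂ) ^ 2 + (s - 1 / 2) * x)‖ ≤ bd R x := by
  have h1 : ‖(phi1 x : ℂ) * cexp (-(x : ℂ) ^ 2 + (s - 1 / 2) * x)‖ =
      |phi1 x| * Real.exp (-x ^ 2 + (s - 1 / 2).re * x) := by
    rw [norm_mul, Complex.norm_real, Real.norm_eq_abs, Complex.norm_exp]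
    congr 2
    rw [add_re, mul_re, ofReal_re, ofReal_im, mul_zero, sub_zero, ← ofReal_pow, ← ofReal_neg,
      ofReal_re]
  have hR : 0 ≤ R := (abs_nonneg _).trans hs
  have h2 : -x ^ 2 + (s - 1 / 2).re * x ≤ -(x ^ 2) + R * |x| := by
    have : (s - 1 / 2).re * x ≤ |(s - 1 / 2).re| * |x| := by
      rw [← abs_mul]
      exact le_abs_self _
    have h3 := mul_le_mul_of_nonneg_right hs (abs_nonneg x)
    linarith
  have h4 : |x| ≤ Real.exp |x| := (by linarith : |x| ≤ |x| + 1).trans (Real.add_one_le_exp _)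
  have h5 : -(x ^ 2) + (R + 1) * |x| ≤ (R + 1) ^ 2 / 2 + -(1 / 2) * x ^ 2 := by
    have := sq_nonneg (|x| - (R + 1))
    rw [sub_sq, sq_abs] at this
    nlinarith
  have hK : 0 ≤ 2 * (2 * Real.pi ^ 2 + 3 * Real.pi) := by positivity
  have h6 : |phi1 x| * Real.exp (-x ^ 2 + (s - 1 / 2).re * x) ≤
      2 * (2 * Real.pi ^ 2 + 3 * Real.pi) * Real.exp (-(x ^ 2) + R * |x|) :=
    mul_le_mul (phi1_bound x) (Real.exp_le_exp.2 h2) (Real.exp_pos _).le hK
  unfold bd
  rw [h1, ← Real.exp_add]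
  constructor
  · calc |x| * (|phi1 x| * Real.exp (-x ^ 2 + (s - 1 / 2).re * x))
        ≤ Real.exp |x| * (2 * (2 * Real.pi ^ 2 + 3 * Real.pi) *
          Real.exp (-(x ^ 2) + R * |x|)) :=
          mul_le_mul h4 h6 (by positivity) (Real.exp_pos _).le
      _ = 2 * (2 * Real.pi ^ 2 + 3 * Real.pi) * Real.exp (-(x ^ 2) + (R + 1) * |x|) := by
          rw [mul_left_comm, ← Real.exp_add]
          congr 2
          ring
      _ ≤ _ := mul_le_mul_of_nonneg_left (Real.exp_le_exp.2 h5) hK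
  · refine h6.trans (mul_le_mul_of_nonneg_left (Real.exp_le_exp.2 (le_trans ?_ h5)) hK)
    nlinarith [abs_nonneg x]

lemma G_diff : Differentiable ℂ G := by
  intro s
  have hc : ∀ s : ℂ, Continuous
      (fun x : ℝ => (phi1 x : ℂ) * cexp (-(x : ℂ) ^ 2 + (s - 1 / 2) * x)) := by
    intro s
    have := phi1_cont
    fun_prop
  have h := hasDerivAt_integral_of_dominated_loc_of_deriv_le (𝕜 := ℂ) (x₀ := s)
    (s := Metric.ball s 1) (μ := volume)
    (F := fun (s : ℂ) (x : ℝ) => (phi1 x : ℂ) * cexp (-(x : ℂ) ^ 2 + (s - 1 / 2) * x))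
    (F' := fun (s : ℂ) (x : ℝ) => (x : ℂ) * ((phi1 x : ℂ) *
      cexp (-(x : ℂ) ^ 2 + (s - 1 / 2) * x)))
    (bound := bd (|(s - 1 / 2).re| + 1)) (Metric.ball_mem_nhds s one_pos)
    (Eventually.of_forall fun z => (hc z).aestronglyMeasurable) ?_ ?_ ?_ (bd_int _) ?_
  · exact h.2.differentiableAt
  · refine (bd_int (|(s - 1 / 2).re| + 1)).mono' (hc s).aestronglyMeasurable
      (Eventually.of_forall fun x => ?_)
    exact (le_bd _ s (by linarith) x).2
  · exact (continuous_ofReal.mul (hc s)).aestronglyMeasurable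
  · refine Eventually.of_forall fun x z hz => ?_
    rw [norm_mul, Complex.norm_real, Real.norm_eq_abs]
    refine (le_bd _ z ?_ x).1
    have h1 : (z - 1 / 2).re = (s - 1 / 2).re + (z - s).re := by
      simp
    rw [h1]
    refine (abs_add_le _ _).trans ?_
    have h2 := (abs_re_le_norm (z - s)).trans (mem_ball_iff_norm.1 hz).le
    linarith
  · refine Eventually.of_forall fun x z _ => ?_
    have h1 : HasDerivAt (fun s : ℂ => -(x : ℂ) ^ 2 + (s - 1 / 2) * x) (1 * (x : ℂ)) z :=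
      (((hasDerivAt_id z).sub_const (1 / 2)).mul_const (x : ℂ)).const_add _
    have h2 := (h1.cexp).const_mul (phi1 x : ℂ)
    have e : (x : ℂ) * ((phi1 x : ℂ) * cexp (-(x : ℂ) ^ 2 + (z - 1 / 2) * x)) =
        (phi1 x : ℂ) * (cexp (-(x : ℂ) ^ 2 + (z - 1 / 2) * x) * (1 * (x : ℂ))) := by ring
    rw [e]
    exact h2

theorem grep : S_GREP := ⟨contour, hh_bound, G_diff⟩

end

end Pool.Agent.W636.XI
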